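import Pool.Agent.Lib.MP_72646e_co.Big.Stmts

set_option autoImplicit false

/-! Project Big, module B7: even diameters. -/

namespace Pool.Agent.Lib.MP_72646e_co.Big

open Finset Pool.Agent.Lib.MP_72646e_co.Low

lemma even_supp {m n : ℕ} (x : Fin n → Fin (2 * m + 1)) :
    (univ.filter fun i => (x i : ℕ) ≠ 0).card ≤ hm x := by
  classical
  unfold hm
  rw [Finset.card_eq_sum_ones, Finset.sum_filter]
  refine Finset.sum_le_sum fun i _ => ?_
  split_ifs with h
  · unfold hn
    omega
  · exact Nat.zero_le _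

lemma even_geom (R : ℕ) : ∑ i ∈ range R, (2 / 5 : ℝ) ^ (i + 1) ≤ 2 / 3 := by
  have h : ∀ R : ℕ, ∑ i ∈ range R, (2 / 5 : ℝ) ^ (i + 1) = 2 / 3 * (1 - (2 / 5 : ℝ) ^ R) := by
    intro R
    induction R with
    | zero => simp
    | succ R ih =>
      rw [Finset.sum_range_succ, ih]
      ring
  rw [h]
  have : (0 : ℝ) ≤ (2 / 5 : ℝ) ^ R := by positivity
  linarith

theorem stBEven (h2 : StRatio2) (h3 : StHeavy) (h4 : StSav) (h6 : StLevel) : StBEven := by
  intro m n R A hm1 hnR hA
  have hR3 : 40 * R ^ 3 ≤ n := by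
    refine le_trans ?_ hnR
    gcongr
    omega
  have hRn : 2 * R ≤ n := by
    refine le_trans ?_ hnR
    nlinarith [Nat.zero_le (R ^ 3), Nat.zero_le (R ^ 2)]
  have hsav : ∀ x ∈ A, ∀ y ∈ A,
      hm x + hm y ≤ 2 * R + ∑ i ∈ univ.filter (fun i => (x i : ℕ) ≠ 0), hn (y i) :=
    fun x hx y hy => (h4 m n x y).trans (Nat.add_le_add_right (hA x hx y hy) _)
  have hle : ∀ y ∈ A, hm y ≤ 2 * R := by
    intro y hy
    have h := hsav y hy y hy
    have h' : ∑ i ∈ univ.filter (fun i => (y i : ℕ) ≠ 0), hn (y i) ≤ hm y :=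
      Finset.sum_le_sum_of_subset (Finset.filter_subset _ _)
    omega
  have hbl : bl m n R = (univ.filter fun x : Fin n → Fin (2 * m + 1) => hm x < R).card +
      sp m n R := by
    unfold bl sp
    rw [← Finset.card_union_of_disjoint]
    · congr 1
      ext x
      simp only [Finset.mem_filter, Finset.mem_univ, true_and, Finset.mem_union]
      omega
    · rw [Finset.disjoint_left]
      intro x hx hx'
      simp only [Finset.mem_filter, Finset.mem_univ, true_and] at hx hx'
      omega
  by_cases hall : ∀ y ∈ A, hm y ≤ R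
  · unfold bl
    exact Finset.card_le_card fun y hy => Finset.mem_filter.mpr ⟨Finset.mem_univ _, hall y hy⟩
  push Not at hall
  obtain ⟨z, hz, hzR⟩ := hall
  have hR1 : 1 ≤ R := by
    have := hle z hz
    omega
  have hn0 : (0 : ℝ) < n := by
    have : 0 < n := by omega
    exact_mod_cast this
  have hR3' : 40 * (R : ℝ) ^ 3 ≤ n := by exact_mod_cast hR3
  have hR1' : (1 : ℝ) ≤ R := by exact_mod_cast hR1
  have hsp0 : (0 : ℝ) ≤ sp m n R := Nat.cast_nonneg _
  -- the level `R`
  have hlev0 : ((A.filter fun y => hm y = R).card : ℝ) ≤ sp m n R / 10 := by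
    have h5 : (A.filter fun y => hm y = R).card ≤
        (2 * (univ.filter fun i => (z i : ℕ) ≠ 0).card) ^ 1 * sp m n (R - 1) := by
      refine le_trans (Finset.card_le_card ?_) (h3 m n R 1 (univ.filter fun i => (z i : ℕ) ≠ 0) hR1)
      intro y hy
      obtain ⟨hyA, hyR⟩ := Finset.mem_filter.mp hy
      refine Finset.mem_filter.mpr ⟨Finset.mem_univ _, hyR, ?_⟩
      have := hsav z hz y hyA
      omega
    have h7 : (univ.filter fun i => (z i : ℕ) ≠ 0).card ≤ 2 * R := (even_supp z).trans (hle z hz)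
    have h8 := h2 m n R 1 hm1 hRn hR1
    rw [pow_one] at h5
    rw [pow_one, pow_one] at h8
    have h9 : n * (A.filter fun y => hm y = R).card ≤ 4 * R * R * sp m n R := by
      calc n * (A.filter fun y => hm y = R).card
          ≤ n * (2 * (2 * R) * sp m n (R - 1)) := by
            gcongr
            exact h5.trans (by gcongr)
        _ = 4 * R * (n * sp m n (R - 1)) := by ring
        _ ≤ 4 * R * (R * sp m n R) := by gcongr
        _ = 4 * R * R * sp m n R := by ring
    have h10 : (n : ℝ) * ((A.filter fun y => hm y = R).card : ℝ) ≤ 4 * R * R * sp m n R := by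
      exact_mod_cast h9
    have h11 : 4 * (R : ℝ) * R * sp m n R ≤ n * (sp m n R / 10) := by
      have h12 : 4 * (R : ℝ) * R ≤ n / 10 := by nlinarith
      nlinarith
    exact le_of_mul_le_mul_left (h10.trans h11) hn0
  -- the levels above
  have hlev : ∀ i ∈ range R, ((A.filter fun y => hm y = R + (i + 1)).card : ℝ) ≤
      (2 / 5 : ℝ) ^ (i + 1) * sp m n R := by
    intro i hi
    have hiR : i + 1 ≤ R := Finset.mem_range.mp hi
    have h5 := h6 m n (2 * R) R (i + 1) (2 * (i + 1)) A hm1 hA (by ring) (by omega)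
    have h7 : R + (i + 1) - 2 * (i + 1) = R - (i + 1) := by omega
    rw [h7] at h5
    have h8 := h2 m n R (i + 1) hm1 hRn hiR
    have h9 : n ^ (i + 1) * (A.filter fun y => hm y = R + (i + 1)).card ≤
        (16 * R ^ 3) ^ (i + 1) * sp m n R := by
      calc n ^ (i + 1) * (A.filter fun y => hm y = R + (i + 1)).card
          ≤ n ^ (i + 1) * ((2 * (2 * R)) ^ (2 * (i + 1)) * sp m n (R - (i + 1))) := by gcongr
        _ = (2 * (2 * R)) ^ (2 * (i + 1)) * (n ^ (i + 1) * sp m n (R - (i + 1))) := by ring
        _ ≤ (2 * (2 * R)) ^ (2 * (i + 1)) * (R ^ (i + 1) * sp m n R) := by gcongr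
        _ = (16 * R ^ 3) ^ (i + 1) * sp m n R := by
            rw [pow_mul, ← mul_assoc, ← mul_pow]
            congr 2
            ring
    have h10 : (n : ℝ) ^ (i + 1) * ((A.filter fun y => hm y = R + (i + 1)).card : ℝ) ≤
        (16 * (R : ℝ) ^ 3) ^ (i + 1) * sp m n R := by
      exact_mod_cast h9
    have h11 : (16 * (R : ℝ) ^ 3) ^ (i + 1) ≤ ((n : ℝ) * (2 / 5)) ^ (i + 1) := by
      refine pow_le_pow_left₀ (by positivity) ?_ _
      linarith
    have h12 : (n : ℝ) ^ (i + 1) * ((A.filter fun y => hm y = R + (i + 1)).card : ℝ) ≤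
        (n : ℝ) ^ (i + 1) * ((2 / 5 : ℝ) ^ (i + 1) * sp m n R) := by
      refine h10.trans ?_
      rw [← mul_assoc, ← mul_pow]
      exact mul_le_mul_of_nonneg_right h11 hsp0
    exact le_of_mul_le_mul_left h12 (by positivity)
  -- the sum
  have hcov : A ⊆ (univ.filter fun x : Fin n → Fin (2 * m + 1) => hm x < R) ∪
      ((A.filter fun y => hm y = R) ∪
        (range R).biUnion fun i => A.filter fun y => hm y = R + (i + 1)) := by
    intro y hy
    rw [Finset.mem_union, Finset.mem_union, Finset.mem_biUnion]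
    rcases Nat.lt_trichotomy (hm y) R with h | h | h
    · exact Or.inl (Finset.mem_filter.mpr ⟨Finset.mem_univ _, h⟩)
    · exact Or.inr (Or.inl (Finset.mem_filter.mpr ⟨hy, h⟩))
    · refine Or.inr (Or.inr ⟨hm y - R - 1, ?_, Finset.mem_filter.mpr ⟨hy, ?_⟩⟩)
      · have := hle y hy
        rw [Finset.mem_range]
        omega
      · omega
  have hcard : (A.card : ℝ) ≤
      ((univ.filter fun x : Fin n → Fin (2 * m + 1) => hm x < R).card : ℝ) +
        (((A.filter fun y => hm y = R).card : ℝ) +
          ∑ i ∈ range R, ((A.filter fun y => hm y = R + (i + 1)).card : ℝ)) := by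
    have h5 := Finset.card_le_card hcov
    have h7 := Finset.card_union_le (univ.filter fun x : Fin n → Fin (2 * m + 1) => hm x < R)
      ((A.filter fun y => hm y = R) ∪
        (range R).biUnion fun i => A.filter fun y => hm y = R + (i + 1))
    have h8 := Finset.card_union_le (A.filter fun y => hm y = R)
      ((range R).biUnion fun i => A.filter fun y => hm y = R + (i + 1))
    have h9 : ((range R).biUnion fun i => A.filter fun y => hm y = R + (i + 1)).card ≤
        ∑ i ∈ range R, (A.filter fun y => hm y = R + (i + 1)).card := Finset.card_biUnion_le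
    have h10 : A.card ≤ (univ.filter fun x : Fin n → Fin (2 * m + 1) => hm x < R).card +
        ((A.filter fun y => hm y = R).card +
          ∑ i ∈ range R, (A.filter fun y => hm y = R + (i + 1)).card) := by omega
    exact_mod_cast h10
  have hsum : ∑ i ∈ range R, ((A.filter fun y => hm y = R + (i + 1)).card : ℝ) ≤
      2 / 3 * sp m n R := by
    refine (Finset.sum_le_sum hlev).trans ?_
    rw [← Finset.sum_mul]
    exact mul_le_mul_of_nonneg_right (even_geom R) hsp0
  have hfin : (A.card : ℝ) ≤ (bl m n R : ℝ) := by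
    rw [hbl]
    push_cast
    linarith
  exact_mod_cast hfin

end Pool.Agent.Lib.MP_72646e_co.Big
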