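import Pool.Agent.Lib.MP_72646e_co.Big.Stmts

set_option autoImplicit false

namespace Pool.Agent.Lib.MP_72646e_co.Big

open Finset Pool.Agent.Lib.MP_72646e_co.Low

/-- The rank two steps further out (one bit at the origin). -/
def heavyUp (m : ℕ) (b : Bool) (k : Fin (2 * m + 1)) : Fin (2 * m + 1) :=
  ⟨min (if (k : ℕ) = 0 then (if b then 1 else 2) else (k : ℕ) + 2) (2 * m), by omega⟩

/-- The rank two steps further in. -/
def heavyDown (m : ℕ) (k : Fin (2 * m + 1)) : Fin (2 * m + 1) :=
  ⟨(k : ℕ) - 2, by have := k.2; omega⟩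

theorem heavy_hn_down (m : ℕ) (k : Fin (2 * m + 1)) (hk : hn k ≠ 0) :
    hn (heavyDown m k) + 1 = hn k := by
  unfold hn heavyDown at *
  simp only at *
  omega

theorem heavy_up_down (m : ℕ) (k : Fin (2 * m + 1)) (hk : hn k ≠ 0) :
    heavyUp m (decide ((k : ℕ) = 1)) (heavyDown m k) = k := by
  have hk2 := k.2
  unfold hn at hk
  apply Fin.ext
  unfold heavyUp heavyDown
  simp only [decide_eq_true_eq]
  split_ifs <;> omega

theorem heavy_sum_update {m n : ℕ} (Z : Finset (Fin n)) (y : Fin n → Fin (2 * m + 1)) (i : Fin n)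
    (hi : i ∈ Z) (c : Fin (2 * m + 1)) :
    ∑ j ∈ Z, hn (Function.update y i c j) + hn (y i) = ∑ j ∈ Z, hn (y j) + hn c := by
  rw [← Finset.add_sum_erase Z _ hi, ← Finset.add_sum_erase Z (fun j => hn (y j)) hi]
  have h : ∑ j ∈ Z.erase i, hn (Function.update y i c j) = ∑ j ∈ Z.erase i, hn (y j) := by
    apply Finset.sum_congr rfl
    intro j hj
    rw [Function.update_of_ne (Finset.ne_of_mem_erase hj)]
  rw [h, Function.update_self]
  ring

theorem heavy_step (m n r u : ℕ) (Z : Finset (Fin n)) :
    (univ.filter fun y : Fin n → Fin (2 * m + 1) =>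
      hm y = r + 1 ∧ u + 1 ≤ ∑ i ∈ Z, hn (y i)).card ≤
      2 * Z.card * (univ.filter fun y : Fin n → Fin (2 * m + 1) =>
        hm y = r ∧ u ≤ ∑ i ∈ Z, hn (y i)).card := by
  classical
  set F := univ.filter fun y : Fin n → Fin (2 * m + 1) => hm y = r ∧ u ≤ ∑ i ∈ Z, hn (y i)
    with hF
  have hsub : (univ.filter fun y : Fin n → Fin (2 * m + 1) =>
      hm y = r + 1 ∧ u + 1 ≤ ∑ i ∈ Z, hn (y i)) ⊆
      (Z ×ˢ (univ : Finset Bool)).biUnion fun p =>
        F.image fun y => Function.update y p.1 (heavyUp m p.2 (y p.1)) := by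
    intro y hy
    rw [mem_filter] at hy
    obtain ⟨-, hy1, hy2⟩ := hy
    have hex : ∃ i ∈ Z, hn (y i) ≠ 0 := by
      by_contra hcon
      push Not at hcon
      have : ∑ i ∈ Z, hn (y i) = 0 := Finset.sum_eq_zero hcon
      omega
    obtain ⟨i, hi, hi0⟩ := hex
    rw [mem_biUnion]
    refine ⟨(i, decide ((y i : ℕ) = 1)), mem_product.mpr ⟨hi, mem_univ _⟩, ?_⟩
    rw [mem_image]
    refine ⟨Function.update y i (heavyDown m (y i)), ?_, ?_⟩
    · rw [hF, mem_filter]
      refine ⟨mem_univ _, ?_, ?_⟩
      · have h := heavy_sum_update univ y i (mem_univ i) (heavyDown m (y i))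
        have h2 := heavy_hn_down m (y i) hi0
        unfold hm at *
        omega
      · have h := heavy_sum_update Z y i hi (heavyDown m (y i))
        have h2 := heavy_hn_down m (y i) hi0
        omega
    · dsimp only
      rw [Function.update_self, heavy_up_down m (y i) hi0, Function.update_idem,
        Function.update_eq_self]
  refine (card_le_card hsub).trans (card_biUnion_le.trans ?_)
  refine (Finset.sum_le_card_nsmul _ _ F.card fun p _ => card_image_le).trans ?_
  rw [card_product, card_univ, Fintype.card_bool, smul_eq_mul, mul_comm Z.card 2]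

/-- B3: vectors which are heavy on a small set of coordinates. -/
theorem stHeavy : StHeavy := by
  intro m n r u Z
  induction u generalizing r with
  | zero =>
    intro _
    unfold sp
    rw [pow_zero, one_mul, Nat.sub_zero]
    apply card_le_card
    intro y hy
    rw [mem_filter] at hy ⊢
    exact ⟨hy.1, hy.2.1⟩
  | succ u ih =>
    intro hur
    obtain ⟨r', rfl⟩ : ∃ r', r = r' + 1 := ⟨r - 1, by omega⟩
    have h1 := heavy_step m n r' u Z
    have h2 := ih r' (by omega)
    rw [show r' + 1 - (u + 1) = r' - u by omega, pow_succ, mul_comm ((2 * Z.card) ^ u) _,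
      mul_assoc]
    exact h1.trans (Nat.mul_le_mul_left _ h2)

end Pool.Agent.Lib.MP_72646e_co.Big
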