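import Pool.Agent.Lib.MP_72646e_co.Big.Stmts

set_option autoImplicit false

namespace Pool.Agent.Lib.MP_72646e_co.Big

open Finset Pool.Agent.Lib.MP_72646e_co.Low

/-- the support of a vector -/
def Odd_supp {m n : ℕ} (x : Fin n → Fin (2 * m + 1)) : Finset (Fin n) :=
  univ.filter fun i => (x i : ℕ) ≠ 0

/-- vectors of weight `R + 1` with weight at least two on `Z` -/
def Odd_H (m n R : ℕ) (Z : Finset (Fin n)) : Finset (Fin n → Fin (2 * m + 1)) :=
  univ.filter fun y => hm y = R + 1 ∧ 2 ≤ ∑ i ∈ Z, hn (y i)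

theorem Odd_hn_pos {q : ℕ} {k : Fin q} : 1 ≤ hn k ↔ (k : ℕ) ≠ 0 := by
  unfold hn
  omega

theorem Odd_sum_le {m n : ℕ} (x : Fin n → Fin (2 * m + 1)) (Z : Finset (Fin n)) :
    ∑ i ∈ Z, hn (x i) ≤ hm x :=
  sum_le_sum_of_subset (subset_univ Z)

theorem Odd_supp_card {m n : ℕ} (x : Fin n → Fin (2 * m + 1)) : (Odd_supp x).card ≤ hm x := by
  refine le_trans ?_ (Odd_sum_le x (Odd_supp x))
  rw [card_eq_sum_ones]
  apply sum_le_sum
  intro i hi
  exact Odd_hn_pos.mpr (mem_filter.mp hi).2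

theorem Odd_heavy (h2 : StRatio2) (h3 : StHeavy) {m n R : ℕ} (hm1 : 1 ≤ m) (hn2 : 2 * R ≤ n)
    (Z : Finset (Fin n)) :
    n * (Odd_H m n R Z).card ≤ 4 * Z.card ^ 2 * R * sp m n R := by
  rcases Nat.eq_zero_or_pos R with h0 | h0
  · subst h0
    have : Odd_H m n 0 Z = ∅ := by
      apply filter_eq_empty_iff.mpr
      rintro y - ⟨h1, h2⟩
      have := Odd_sum_le y Z
      omega
    rw [this]
    simp
  · have e1 := h3 m n (R + 1) 2 Z (by omega)
    have e2 := h2 m n R 1 hm1 hn2 h0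
    rw [pow_one, pow_one] at e2
    have e3 : R + 1 - 2 = R - 1 := by omega
    rw [e3] at e1
    calc n * (Odd_H m n R Z).card ≤ n * ((2 * Z.card) ^ 2 * sp m n (R - 1)) :=
          Nat.mul_le_mul_left _ e1
      _ = (2 * Z.card) ^ 2 * (n * sp m n (R - 1)) := by ring
      _ ≤ (2 * Z.card) ^ 2 * (R * sp m n R) := Nat.mul_le_mul_left _ e2
      _ = 4 * Z.card ^ 2 * R * sp m n R := by ring

theorem Odd_sav (h4 : StSav) {m n R : ℕ} {A : Finset (Fin n → Fin (2 * m + 1))}
    (hA : CC m n (2 * R + 1) A) {x y : Fin n → Fin (2 * m + 1)} (hx : x ∈ A) (hy : y ∈ A) :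
    hm x + hm y ≤ 2 * R + 1 + ∑ i ∈ Odd_supp x, hn (y i) := by
  have e1 := h4 m n x y
  have e2 := hA x hx y hy
  have e3 : Odd_supp x = univ.filter (fun i => (x i : ℕ) ≠ 0) := rfl
  rw [e3]
  have e4 : (∑ i ∈ univ.filter (fun i => (x i : ℕ) ≠ 0), hn (y i)) =
      @Finset.sum (Fin n) ℕ _ (@Finset.filter (Fin n) (fun i => (x i : ℕ) ≠ 0)
        (fun a => Classical.propDecidable _) univ) (fun i => hn (y i)) := by
    congr
  omega

/-- the numerical facts about the ratio -/
theorem Odd_num {n R : ℕ} (h : 300 * (R + 1) ^ 4 ≤ n) :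
    ((4 * R + 2 : ℝ)) * ((4 * R + 2 : ℝ) ^ 2 * (R / n)) ≤ 2 / 9 ∧
    ((4 * R + 2 : ℝ) ^ 2 * (R / n)) ≤ 1 / 18 := by
  have hn0 : (300 : ℝ) * (R + 1) ^ 4 ≤ n := by exact_mod_cast h
  have hR : (0 : ℝ) ≤ R := Nat.cast_nonneg R
  have hp : (0 : ℝ) < (R + 1) ^ 4 := by positivity
  have hnp : (0 : ℝ) < n := by linarith
  have hX : (4 * R + 2 : ℝ) ^ 2 * (R / n) ≤ 1 / (18 * (R + 1)) := by
    rw [← mul_div_assoc, div_le_div_iff₀ hnp (by positivity)]
    nlinarith [hn0, pow_nonneg hR 2, pow_nonneg hR 3, pow_nonneg hR 4]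
  constructor
  · calc (4 * R + 2 : ℝ) * ((4 * R + 2 : ℝ) ^ 2 * (R / n))
        ≤ (4 * (R + 1)) * (1 / (18 * (R + 1))) := by
          apply mul_le_mul (by linarith) hX (by positivity) (by positivity)
      _ = 2 / 9 := by
          field_simp
          norm_num
  · refine hX.trans ?_
    apply one_div_le_one_div_of_le (by norm_num)
    linarith

theorem Odd_level (h2 : StRatio2) (h6 : StLevel) {m n R : ℕ}
    {A : Finset (Fin n → Fin (2 * m + 1))} (hm1 : 1 ≤ m) (hn : 300 * (R + 1) ^ 4 ≤ n)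
    (hA : CC m n (2 * R + 1) A) (i : ℕ) (hi : i < R) :
    ((A.filter fun y => hm y = R + (i + 2)).card : ℝ) ≤ 2 / 9 * (1 / 18) ^ i * sp m n R := by
  have e1 := h6 m n (2 * R + 1) R (i + 2) (2 * i + 3) A hm1 hA (by ring) (by omega)
  have e3 : R + (i + 2) - (2 * i + 3) = R - (i + 1) := by omega
  rw [e3] at e1
  have hn2 : 2 * R ≤ n := by
    have : R + 1 ≤ (R + 1) ^ 4 := Nat.le_self_pow (by norm_num) _
    omega
  have e2 := h2 m n R (i + 1) hm1 hn2 (by omega)
  have hnp : (0 : ℝ) < n := by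
    have : 0 < n := by omega
    exact_mod_cast this
  have e1' : ((A.filter fun y => hm y = R + (i + 2)).card : ℝ) ≤
      (2 * (2 * R + 1) : ℝ) ^ (2 * i + 3) * sp m n (R - (i + 1)) := by exact_mod_cast e1
  have e2' : (sp m n (R - (i + 1)) : ℝ) ≤ (R / n : ℝ) ^ (i + 1) * sp m n R := by
    have : (n : ℝ) ^ (i + 1) * sp m n (R - (i + 1)) ≤ (R : ℝ) ^ (i + 1) * sp m n R := by
      exact_mod_cast e2
    rw [div_pow, div_mul_eq_mul_div, le_div_iff₀ (pow_pos hnp _)]
    linarith
  obtain ⟨g1, g2⟩ := Odd_num hn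
  have hR : (0 : ℝ) ≤ R := Nat.cast_nonneg R
  have hX0 : (0 : ℝ) ≤ (4 * R + 2 : ℝ) ^ 2 * (R / n) := by positivity
  have hs0 : (0 : ℝ) ≤ sp m n R := Nat.cast_nonneg _
  calc ((A.filter fun y => hm y = R + (i + 2)).card : ℝ)
      ≤ (2 * (2 * R + 1) : ℝ) ^ (2 * i + 3) * sp m n (R - (i + 1)) := e1'
    _ ≤ (2 * (2 * R + 1) : ℝ) ^ (2 * i + 3) * ((R / n : ℝ) ^ (i + 1) * sp m n R) := by
        apply mul_le_mul_of_nonneg_left e2' (by positivity)
    _ = (((4 * R + 2 : ℝ)) * ((4 * R + 2 : ℝ) ^ 2 * (R / n))) *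
          ((4 * R + 2 : ℝ) ^ 2 * (R / n)) ^ i * sp m n R := by
        have : (2 * (2 * R + 1) : ℝ) = 4 * R + 2 := by ring
        rw [this, mul_pow _ _ i, ← pow_mul]
        ring
    _ ≤ 2 / 9 * (1 / 18) ^ i * sp m n R := by
        apply mul_le_mul_of_nonneg_right _ hs0
        apply mul_le_mul g1 (pow_le_pow_left₀ hX0 g2 i) (by positivity) (by norm_num)

theorem Odd_geom (N : ℕ) : ∑ i ∈ range N, (2 / 9 : ℝ) * (1 / 18) ^ i ≤ 4 / 17 := by
  have h : ∀ N : ℕ, ∑ i ∈ range N, (2 / 9 : ℝ) * (1 / 18) ^ i = 4 / 17 * (1 - (1 / 18) ^ N) := by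
    intro N
    induction N with
    | zero => simp
    | succ k ih =>
      rw [sum_range_succ, ih, pow_succ]
      ring
  rw [h]
  have : (0 : ℝ) ≤ (1 / 18) ^ N := by positivity
  linarith

/-- counting by levels -/
theorem Odd_count {m n R : ℕ} (A : Finset (Fin n → Fin (2 * m + 1))) :
    (∀ y ∈ A, hm y ≤ 2 * R + 1) →
    A.card ≤ bl m n R + (A.filter fun y => hm y = R + 1).card +
      ∑ i ∈ range R, (A.filter fun y => hm y = R + (i + 2)).card := by
  intro h
  have hsub : A ⊆ (univ.filter fun x : Fin n → Fin (2 * m + 1) => hm x ≤ R) ∪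
      (A.filter fun y => hm y = R + 1) ∪
      (range R).biUnion (fun i => A.filter fun y => hm y = R + (i + 2)) := by
    intro y hy
    have := h y hy
    rw [mem_union, mem_union, mem_filter, mem_filter, mem_biUnion]
    rcases lt_trichotomy (hm y) (R + 1) with h1 | h1 | h1
    · exact Or.inl (Or.inl ⟨mem_univ _, by omega⟩)
    · exact Or.inl (Or.inr ⟨hy, h1⟩)
    · refine Or.inr ⟨hm y - (R + 2), mem_range.mpr (by omega), mem_filter.mpr ⟨hy, by omega⟩⟩
  calc A.card ≤ _ := card_le_card hsub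
    _ ≤ _ := card_union_le _ _
    _ ≤ bl m n R + (A.filter fun y => hm y = R + 1).card + _ := by
        apply Nat.add_le_add (card_union_le _ _) card_biUnion_le

/-- the case of a far away point -/
theorem Odd_far (h2 : StRatio2) (h3 : StHeavy) (h4 : StSav) (h6 : StLevel) {m n R : ℕ}
    {A : Finset (Fin n → Fin (2 * m + 1))} (hm1 : 1 ≤ m) (hn : 300 * (R + 1) ^ 4 ≤ n)
    (hA : CC m n (2 * R + 1) A) {z : Fin n → Fin (2 * m + 1)} (hz : z ∈ A)
    (hz2 : R + 2 ≤ hm z) : 2 * A.card ≤ 2 * bl m n R + sp m n R := by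
  have hle : ∀ y ∈ A, hm y ≤ 2 * R + 1 := by
    intro y hy
    have e1 := Odd_sav h4 hA hy hy
    have e2 := Odd_sum_le y (Odd_supp y)
    omega
  have hn2 : 2 * R ≤ n := by
    have : R + 1 ≤ (R + 1) ^ 4 := Nat.le_self_pow (by norm_num) _
    omega
  have hsub : (A.filter fun y => hm y = R + 1) ⊆ Odd_H m n R (Odd_supp z) := by
    intro y hy
    obtain ⟨hy1, hy2⟩ := mem_filter.mp hy
    have e1 := Odd_sav h4 hA hz hy1
    exact mem_filter.mpr ⟨mem_univ _, hy2, by omega⟩
  have hH := Odd_heavy h2 h3 hm1 hn2 (Odd_supp z)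
  have hc : (Odd_supp z).card ≤ 2 * R + 1 := (Odd_supp_card z).trans (hle z hz)
  have hL : n * (A.filter fun y => hm y = R + 1).card ≤ 4 * (2 * R + 1) ^ 2 * R * sp m n R := by
    refine (Nat.mul_le_mul_left _ (card_le_card hsub)).trans (hH.trans ?_)
    gcongr
  have hnp : (0 : ℝ) < n := by
    have h1 : 0 < (R + 1) ^ 4 := by positivity
    have : 0 < n := by omega
    exact_mod_cast this
  have hs0 : (0 : ℝ) ≤ sp m n R := Nat.cast_nonneg _
  obtain ⟨-, g2⟩ := Odd_num hn
  have hL' : ((A.filter fun y => hm y = R + 1).card : ℝ) ≤ 1 / 18 * sp m n R := by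
    have h1 : (n : ℝ) * (A.filter fun y => hm y = R + 1).card ≤
        4 * (2 * R + 1) ^ 2 * R * sp m n R := by exact_mod_cast hL
    have h2 : ((A.filter fun y => hm y = R + 1).card : ℝ) ≤
        (4 * R + 2 : ℝ) ^ 2 * (R / n) * sp m n R := by
      have e : (4 * R + 2 : ℝ) ^ 2 * (R / n) * sp m n R =
          (4 * (2 * R + 1) ^ 2 * R * sp m n R) / n := by
        field_simp
        ring
      rw [e, le_div_iff₀ hnp]
      linarith
    exact h2.trans (mul_le_mul_of_nonneg_right g2 hs0)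
  have hsum : (∑ i ∈ range R, ((A.filter fun y => hm y = R + (i + 2)).card : ℝ)) ≤
      4 / 17 * sp m n R := by
    calc (∑ i ∈ range R, ((A.filter fun y => hm y = R + (i + 2)).card : ℝ))
        ≤ ∑ i ∈ range R, 2 / 9 * (1 / 18) ^ i * (sp m n R : ℝ) :=
          sum_le_sum fun i hi => Odd_level h2 h6 hm1 hn hA i (mem_range.mp hi)
      _ = (∑ i ∈ range R, (2 / 9 : ℝ) * (1 / 18) ^ i) * sp m n R := by rw [sum_mul]
      _ ≤ 4 / 17 * sp m n R := mul_le_mul_of_nonneg_right (Odd_geom R) hs0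
  have hcount := Odd_count (R := R) A hle
  have hcount' : (A.card : ℝ) ≤ bl m n R + (A.filter fun y => hm y = R + 1).card +
      ∑ i ∈ range R, ((A.filter fun y => hm y = R + (i + 2)).card : ℝ) := by
    exact_mod_cast hcount
  have : (2 * A.card : ℝ) ≤ 2 * bl m n R + sp m n R := by linarith
  exact_mod_cast this

theorem Odd_cc {m : ℕ} {k l : Fin (2 * m + 1)} (hk : ¬ od m k) (hl : hn l = 1) :
    cc m k l = hn k + hn l := by
  unfold od at hk
  unfold hn at hl
  unfold cc hn
  have := k.isLt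
  omega

theorem Odd_cc0 {m : ℕ} {k l : Fin (2 * m + 1)} (h : (k : ℕ) = 0 ∨ (l : ℕ) = 0) :
    cc m k l = hn k + hn l := by
  unfold cc hn
  have := k.isLt
  have := l.isLt
  omega

/-- the case of a full set of even witnesses -/
theorem Odd_near (h2 : StRatio2) (h3 : StHeavy) (h4 : StSav) {m n R : ℕ}
    {A : Finset (Fin n → Fin (2 * m + 1))} (hm1 : 1 ≤ m) (hn0 : 300 * (R + 1) ^ 4 ≤ n)
    (hA : CC m n (2 * R + 1) A) {z : Fin n → Fin (2 * m + 1)} (hz : z ∈ A)
    (hz2 : hm z = R + 1) (w : Fin n → Fin n → Fin (2 * m + 1)) (hw : ∀ i, w i ∈ A)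
    (hw1 : ∀ i, hm (w i) = R + 1) (hw2 : ∀ i, ¬ od m (w i i)) :
    2 * (A.filter fun y => hm y = R + 1).card ≤ sp m n R := by
  have hn2 : 2 * R ≤ n := by
    have : R + 1 ≤ (R + 1) ^ 4 := Nat.le_self_pow (by norm_num) _
    omega
  have hsub : (A.filter fun y => hm y = R + 1) ⊆ (Odd_supp z).biUnion fun i =>
      Odd_H m n R {i} ∪ (Odd_supp (w i)).biUnion fun t => Odd_H m n R {i, t} := by
    intro y hy
    obtain ⟨hy1, hy2⟩ := mem_filter.mp hy
    have e1 := Odd_sav h4 hA hz hy1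
    have e2 : 0 < ∑ i ∈ Odd_supp z, hn (y i) := by omega
    obtain ⟨i, hi, hi2⟩ := sum_pos_iff.mp e2 |>.imp fun _ h => h
    rw [mem_biUnion]
    refine ⟨i, hi, ?_⟩
    rw [mem_union]
    rcases Nat.lt_or_ge (hn (y i)) 2 with h1 | h1
    · right
      have hy1' : hn (y i) = 1 := by omega
      by_contra hcon
      rw [mem_biUnion] at hcon
      push Not at hcon
      have hall : ∀ t, cc m (w i t) (y t) = hn (w i t) + hn (y t) := by
        intro t
        by_cases hti : t = i
        · rw [hti]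
          exact Odd_cc (hw2 i) hy1'
        · apply Odd_cc0
          by_contra hnot
          push Not at hnot
          apply hcon t (mem_filter.mpr ⟨mem_univ _, hnot.1⟩)
          refine mem_filter.mpr ⟨mem_univ _, hy2, ?_⟩
          rw [sum_pair (Ne.symm hti)]
          have := Odd_hn_pos.mpr hnot.2
          omega
      have e3 := hA (w i) (hw i) y hy1
      rw [sum_congr rfl (fun t _ => hall t), sum_add_distrib] at e3
      have e4 : ∑ t, hn (w i t) = R + 1 := hw1 i
      have e5 : ∑ t, hn (y t) = R + 1 := hy2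
      omega
    · left
      refine mem_filter.mpr ⟨mem_univ _, hy2, ?_⟩
      rw [sum_singleton]
      exact h1
  have hH1 : ∀ i, n * (Odd_H m n R {i}).card ≤ 4 * (R * sp m n R) := by
    intro i
    have := Odd_heavy h2 h3 hm1 hn2 {i}
    rw [card_singleton] at this
    linarith
  have hH2 : ∀ i t, n * (Odd_H m n R {i, t}).card ≤ 16 * (R * sp m n R) := by
    intro i t
    have h := Odd_heavy h2 h3 hm1 hn2 {i, t}
    have hc : ({i, t} : Finset (Fin n)).card ≤ 2 := card_le_two
    refine h.trans ?_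
    calc 4 * ({i, t} : Finset (Fin n)).card ^ 2 * R * sp m n R ≤ 4 * 2 ^ 2 * R * sp m n R := by
          gcongr
      _ = 16 * (R * sp m n R) := by ring
  have hb : n * (A.filter fun y => hm y = R + 1).card ≤
      (R + 1) * ((4 + 16 * (R + 1)) * (R * sp m n R)) := by
    calc n * (A.filter fun y => hm y = R + 1).card
        ≤ n * ∑ i ∈ Odd_supp z, ((Odd_H m n R {i}).card +
            ∑ t ∈ Odd_supp (w i), (Odd_H m n R {i, t}).card) := by
          apply Nat.mul_le_mul_left
          refine (card_le_card hsub).trans (card_biUnion_le.trans ?_)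
          apply sum_le_sum
          intro i _
          refine (card_union_le _ _).trans ?_
          apply Nat.add_le_add_left card_biUnion_le
      _ = ∑ i ∈ Odd_supp z, (n * (Odd_H m n R {i}).card +
            ∑ t ∈ Odd_supp (w i), n * (Odd_H m n R {i, t}).card) := by
          rw [mul_sum]
          apply sum_congr rfl
          intro i _
          rw [mul_add, mul_sum]
      _ ≤ ∑ i ∈ Odd_supp z, ((4 + 16 * (R + 1)) * (R * sp m n R)) := by
          apply sum_le_sum
          intro i _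
          have h1 : ∑ t ∈ Odd_supp (w i), n * (Odd_H m n R {i, t}).card ≤
              (R + 1) * (16 * (R * sp m n R)) := by
            calc ∑ t ∈ Odd_supp (w i), n * (Odd_H m n R {i, t}).card
                ≤ ∑ t ∈ Odd_supp (w i), 16 * (R * sp m n R) :=
                  sum_le_sum fun t _ => hH2 i t
              _ = (Odd_supp (w i)).card * (16 * (R * sp m n R)) := by
                  rw [sum_const, smul_eq_mul]
              _ ≤ (R + 1) * (16 * (R * sp m n R)) := by
                  apply Nat.mul_le_mul_right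
                  rw [← hw1 i]
                  exact Odd_supp_card _
          have h2 := hH1 i
          calc _ ≤ 4 * (R * sp m n R) + (R + 1) * (16 * (R * sp m n R)) :=
                Nat.add_le_add h2 h1
            _ = (4 + 16 * (R + 1)) * (R * sp m n R) := by ring
      _ = (Odd_supp z).card * ((4 + 16 * (R + 1)) * (R * sp m n R)) := by
          rw [sum_const, smul_eq_mul]
      _ ≤ (R + 1) * ((4 + 16 * (R + 1)) * (R * sp m n R)) := by
          apply Nat.mul_le_mul_right
          rw [← hz2]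
          exact Odd_supp_card _
  have hnp : 0 < n := by
    have h1 : 0 < (R + 1) ^ 4 := by positivity
    omega
  have hfin : n * (2 * (A.filter fun y => hm y = R + 1).card) ≤ n * sp m n R := by
    calc n * (2 * (A.filter fun y => hm y = R + 1).card)
        = 2 * (n * (A.filter fun y => hm y = R + 1).card) := by ring
      _ ≤ 2 * ((R + 1) * ((4 + 16 * (R + 1)) * (R * sp m n R))) := Nat.mul_le_mul_left _ hb
      _ = (2 * ((R + 1) * ((4 + 16 * (R + 1)) * R))) * sp m n R := by ring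
      _ ≤ n * sp m n R := by
          apply Nat.mul_le_mul_right
          refine le_trans ?_ hn0
          nlinarith [Nat.zero_le R, Nat.zero_le (R ^ 2), Nat.zero_le (R ^ 3), Nat.zero_le (R ^ 4)]
  exact Nat.le_of_mul_le_mul_left hfin hnp

theorem stBOdd (h2 : StRatio2) (h3 : StHeavy) (h4 : StSav) (h5 : StTR) (h6 : StLevel) :
    StBOdd := by
  intro m n R A i hm1 hn hA
  obtain ⟨-, t2, t3, t4⟩ := h5
  have hn4 : 4 * R ≤ n := by
    have : R + 1 ≤ (R + 1) ^ 4 := Nat.le_self_pow (by norm_num) _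
    omega
  have hT := t4 m R n i hm1 hn4
  by_cases hfar : ∃ z ∈ A, R + 2 ≤ hm z
  · obtain ⟨z, hz, hz2⟩ := hfar
    have := Odd_far h2 h3 h4 h6 hm1 hn hA hz hz2
    omega
  · push Not at hfar
    by_cases hdir : ∃ i', ∀ y ∈ A, hm y = R + 1 → od m (y i')
    · obtain ⟨i', hi'⟩ := hdir
      rw [t3 m (2 * R + 1) n i i']
      apply card_le_card
      intro y hy
      rw [t2 m R n i' y hm1]
      have := hfar y hy
      rcases Nat.lt_or_ge (hm y) (R + 1) with h1 | h1
      · left; omega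
      · have : hm y = R + 1 := by omega
        exact Or.inr ⟨this, hi' y hy this⟩
    · push Not at hdir
      choose w hw hw1 hw2 using hdir
      have h1 := Odd_near h2 h3 h4 hm1 hn hA (hw i) (hw1 i) w hw hw1 hw2
      have h7 : A.card ≤ bl m n R + (A.filter fun y => hm y = R + 1).card := by
        have hsub : A ⊆ (univ.filter fun x : Fin n → Fin (2 * m + 1) => hm x ≤ R) ∪
            (A.filter fun y => hm y = R + 1) := by
          intro y hy
          have := hfar y hy
          rw [mem_union, mem_filter, mem_filter]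
          rcases Nat.lt_or_ge (hm y) (R + 1) with h1 | h1
          · exact Or.inl ⟨mem_univ _, by omega⟩
          · exact Or.inr ⟨hy, by omega⟩
        exact (card_le_card hsub).trans (card_union_le _ _)
      omega

end Pool.Agent.Lib.MP_72646e_co.Big
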