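import Pool.Agent.Lib.MP_72646e_co.Big.Stmts

set_option autoImplicit false

/-! Project Big, module B1/B2: ratios of sphere sizes in rank coordinates. -/

namespace Pool.Agent.Lib.MP_72646e_co.Big

open Finset

theorem ratio_hm_update {q n : ℕ} (x : Fin n → Fin q) (i : Fin n) (c : Fin q) :
    hm (Function.update x i c) + hn (x i) = hm x + hn c := by
  unfold hm
  rw [← Finset.add_sum_erase univ (fun j => hn (Function.update x i c j)) (mem_univ i),
    ← Finset.add_sum_erase univ (fun j => hn (x j)) (mem_univ i)]
  have h : ∑ j ∈ univ.erase i, hn (Function.update x i c j) = ∑ j ∈ univ.erase i, hn (x j) := by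
    apply Finset.sum_congr rfl
    intro j hj
    rw [Function.update_of_ne (Finset.ne_of_mem_erase hj)]
  rw [h]
  simp only [Function.update_self]
  omega

theorem ratio_zeros {q n : ℕ} (x : Fin n → Fin q) :
    n ≤ (univ.filter fun i => (x i : ℕ) = 0).card + hm x := by
  unfold hm
  rw [Finset.card_filter, ← Finset.sum_add_distrib]
  calc n = ∑ _i : Fin n, 1 := by simp
    _ ≤ _ := by
      apply Finset.sum_le_sum
      intro i _
      unfold hn
      split_ifs <;> omega

theorem ratio_ones {q n : ℕ} (x : Fin n → Fin q) :
    (univ.filter fun i => hn (x i) = 1).card ≤ hm x := by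
  unfold hm
  rw [Finset.card_filter]
  apply Finset.sum_le_sum
  intro i _
  split_ifs <;> omega

/-- B1. -/
theorem stRatio : StRatio := by
  intro m n r hm1
  classical
  have key := Finset.card_mul_le_card_mul
    (s := univ.filter fun x : Fin n → Fin (2 * m + 1) => hm x = r)
    (t := univ.filter fun x : Fin n → Fin (2 * m + 1) => hm x = r + 1)
    (m := 2 * (n - r)) (n := r + 1)
    (fun (x y : Fin n → Fin (2 * m + 1)) =>
      ∃ i, (x i : ℕ) = 0 ∧ hn (y i) = 1 ∧ y = Function.update x i (y i))
    (by
      intro x hx
      rw [mem_filter] at hx
      have h0 := ratio_zeros x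
      -- the neighbours
      let f : Fin n × Fin 2 → (Fin n → Fin (2 * m + 1)) := fun p =>
        Function.update x p.1 ⟨(p.2 : ℕ) + 1, by have := p.2.2; omega⟩
      have hinj : Set.InjOn f
          (((univ.filter fun i => (x i : ℕ) = 0) ×ˢ (univ : Finset (Fin 2)) : Finset _) :
            Set (Fin n × Fin 2)) := by
        rintro ⟨i, c⟩ hi ⟨j, d⟩ hj hfe
        simp only [coe_product, Set.mem_prod, mem_coe, mem_filter, mem_univ, true_and,
          and_true] at hi hj
        have h1 := congrFun hfe i
        simp only [f, Function.update_self] at h1
        by_cases hij : i = j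
        · subst hij
          simp only [Function.update_self, Fin.mk.injEq] at h1
          have : c = d := by
            apply Fin.ext
            omega
          rw [this]
        · rw [Function.update_of_ne hij] at h1
          rw [← h1] at hi
          simp at hi
      calc 2 * (n - r) ≤ (univ.filter fun i => (x i : ℕ) = 0).card * 2 := by omega
        _ = ((univ.filter fun i => (x i : ℕ) = 0) ×ˢ (univ : Finset (Fin 2))).card := by
            rw [card_product]; simp
        _ = (((univ.filter fun i => (x i : ℕ) = 0) ×ˢ (univ : Finset (Fin 2))).image f).card := by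
            rw [Finset.card_image_of_injOn hinj]
        _ ≤ _ := by
            apply Finset.card_le_card
            intro y hy
            rw [mem_image] at hy
            obtain ⟨⟨i, c⟩, hic, rfl⟩ := hy
            rw [mem_product, mem_filter] at hic
            have hi0 : (x i : ℕ) = 0 := hic.1.2
            rw [Finset.mem_bipartiteAbove, mem_filter]
            have hc : hn (⟨(c : ℕ) + 1, by have := c.2; omega⟩ : Fin (2 * m + 1)) = 1 := by
              unfold hn
              have := c.2
              simp only
              omega
            refine ⟨⟨mem_univ _, ?_⟩, i, hi0, ?_, ?_⟩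
            · have h2 := ratio_hm_update x i (⟨(c : ℕ) + 1, by have := c.2; omega⟩ : Fin (2 * m + 1))
              have h3 : hn (x i) = 0 := by unfold hn; omega
              simp only [f]
              omega
            · simp only [f, Function.update_self]
              exact hc
            · simp only [f, Function.update_self])
    (by
      intro y hy
      rw [mem_filter] at hy
      have h1 := ratio_ones y
      calc _ ≤ ((univ.filter fun i => hn (y i) = 1).image
            fun i => Function.update y i (⟨0, by omega⟩ : Fin (2 * m + 1))).card := by
            apply Finset.card_le_card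
            intro x hx
            rw [Finset.mem_bipartiteBelow] at hx
            obtain ⟨_, i, hi0, hi1, hyx⟩ := hx
            rw [mem_image]
            refine ⟨i, by simp [hi1], ?_⟩
            rw [hyx]
            funext j
            by_cases hj : j = i
            · subst hj
              simp only [Function.update_self]
              exact Fin.ext hi0.symm
            · rw [Function.update_of_ne hj, Function.update_of_ne hj]
        _ ≤ (univ.filter fun i => hn (y i) = 1).card := Finset.card_image_le
        _ ≤ r + 1 := by omega)
  unfold sp
  calc _ = _ := Nat.mul_comm _ _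
    _ ≤ _ := key
    _ = _ := Nat.mul_comm _ _

/-- B2. -/
theorem stRatio2 (h : StRatio) : StRatio2 := by
  intro m n r u hm1 hr
  induction u with
  | zero => intro _; simp
  | succ u ih =>
    intro hu
    have ih' := ih (by omega)
    have h1 := h m n (r - (u + 1)) hm1
    have e1 : r - (u + 1) + 1 = r - u := by omega
    rw [e1] at h1
    have h2 : n * sp m n (r - (u + 1)) ≤ r * sp m n (r - u) := by
      calc n * sp m n (r - (u + 1)) ≤ 2 * (n - (r - (u + 1))) * sp m n (r - (u + 1)) :=
            Nat.mul_le_mul_right _ (by omega)
        _ ≤ (r - u) * sp m n (r - u) := h1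
        _ ≤ r * sp m n (r - u) := Nat.mul_le_mul_right _ (by omega)
    calc n ^ (u + 1) * sp m n (r - (u + 1)) = n ^ u * (n * sp m n (r - (u + 1))) := by ring
      _ ≤ n ^ u * (r * sp m n (r - u)) := Nat.mul_le_mul_left _ h2
      _ = r * (n ^ u * sp m n (r - u)) := by ring
      _ ≤ r * (r ^ u * sp m n r) := Nat.mul_le_mul_left _ ih'
      _ = r ^ (u + 1) * sp m n r := by ring

end Pool.Agent.Lib.MP_72646e_co.Big
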