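import Pool.Agent.Lib.MP_72646e_co.Big.Stmts

set_option autoImplicit false

/-! Project Big: savings of pairs, and the heavy levels of a set of small diameter. -/

namespace Pool.Agent.Lib.MP_72646e_co.Big

open Finset Pool.Agent.Lib.MP_72646e_co.Low

lemma sav_term (m : ℕ) (k l : Fin (2 * m + 1)) :
    hn k + hn l ≤ cc m k l + (if (k : ℕ) ≠ 0 then hn l else 0) := by
  have hk := k.2
  have hl := l.2
  unfold hn cc
  by_cases h : (k : ℕ) = 0
  · rw [if_neg (by simpa using h), h]
    have h1 : ((l : ℕ) + 1) / 2 ≤ m := by omega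
    rw [min_eq_right (by omega : (0 + (l : ℕ) + 1) / 2 ≤ m)]
    omega
  · rw [if_pos h]
    have h1 : ((k : ℕ) + 1) / 2 ≤ min m (((k : ℕ) + l + 1) / 2) := by
      refine le_min ?_ ?_ <;> omega
    omega

theorem stSav : StSav := by
  intro m n x y
  unfold hm
  rw [Finset.sum_filter, ← Finset.sum_add_distrib, ← Finset.sum_add_distrib]
  refine Finset.sum_le_sum fun i _ => ?_
  have h := sav_term m (x i) (y i)
  refine h.trans (le_of_eq ?_)
  congr 1

theorem stLevel (h3 : StHeavy) (h4 : StSav) : StLevel := by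
  intro m n D R j s A hm1 hC hD hs
  rcases (A.filter fun y => hm y = R + j).eq_empty_or_nonempty with he | ⟨z, hz⟩
  · rw [he]
    simp
  · obtain ⟨hzA, hzm⟩ := Finset.mem_filter.mp hz
    classical
    set Z : Finset (Fin n) := univ.filter (fun i => ((z i : Fin (2 * m + 1)) : ℕ) ≠ 0) with hZ
    have hZc : Z.card ≤ D := by
      refine le_trans ?_ (hC z hzA z hzA)
      rw [Finset.card_eq_sum_ones, hZ, Finset.sum_filter]
      refine Finset.sum_le_sum fun i _ => ?_
      have hk := (z i).2
      unfold cc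
      split_ifs with h0
      · refine le_min ?_ ?_ <;> omega
      · omega
    have hsub : (A.filter fun y => hm y = R + j) ⊆
        univ.filter fun y : Fin n → Fin (2 * m + 1) =>
          hm y = R + j ∧ s ≤ ∑ i ∈ Z, hn (y i) := by
      intro y hy
      obtain ⟨hyA, hym⟩ := Finset.mem_filter.mp hy
      refine Finset.mem_filter.mpr ⟨Finset.mem_univ _, hym, ?_⟩
      have h5 := h4 m n z y
      have h6 := hC z hzA y hyA
      have h8 : hm z + hm y ≤ ∑ i, cc m (z i) (y i) + ∑ i ∈ Z, hn (y i) := by
        refine h5.trans (le_of_eq ?_)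
        congr 1
      omega
    refine (Finset.card_le_card hsub).trans ((h3 m n (R + j) s Z hs).trans ?_)
    refine Nat.mul_le_mul_right _ (Nat.pow_le_pow_left ?_ s)
    omega

end Pool.Agent.Lib.MP_72646e_co.Big
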