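import Pool.Agent.Lib.MP_72646e_co.Big.Stmts

set_option autoImplicit false

/-! The extremal set and the final statement. -/

namespace Pool.Agent.Lib.MP_72646e_co.Big

open Finset Pool.Agent.Lib.MP_72646e_co.Low

theorem t_lee_nrm {q : ℕ} (a b : Fin q) : lee a b ≤ nrm a + nrm b := by
  have ha := a.2
  have hb := b.2
  simp only [lee, nrm, Nat.dist]
  omega

theorem t_lee_rk {m : ℕ} (hm : 1 ≤ m) (a b : Fin (2 * m + 1)) :
    2 * lee a b ≤ min (rk a) (2 * m - 1) + min (rk b) (2 * m - 1) + 1 := by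
  have ha := a.2
  have hb := b.2
  simp only [lee, rk, Nat.dist]
  split_ifs <;> omega

theorem t_dL {m d : ℕ} (x y : Fin (d + 1) → Fin (2 * m + 1)) :
    dL x y ≤ lee (x 0) (y 0) + ((∑ i : Fin d, nrm (x i.succ)) + ∑ i : Fin d, nrm (y i.succ)) := by
  rw [dL, Fin.sum_univ_succ, ← Finset.sum_add_distrib]
  exact Nat.add_le_add_left (Finset.sum_le_sum fun i _ => t_lee_nrm _ _) _

theorem t_diam (m d D : ℕ) (hm : 1 ≤ m) : ∀ x ∈ T m d D, ∀ y ∈ T m d D, dL x y ≤ D := by
  intro x hx y hy
  have h0 := t_dL x y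
  have h1 := t_lee_rk hm (x 0) (y 0)
  simp only [T, mem_filter, mem_univ, true_and] at hx hy
  omega

/-- The rank bijection. -/
def t_rk {m : ℕ} (a : Fin (2 * m + 1)) : Fin (2 * m + 1) :=
  ⟨rk a, by
    have ha := a.2
    simp only [rk]
    split_ifs <;> omega⟩

theorem t_rk_inj {m : ℕ} : Function.Injective (t_rk : Fin (2 * m + 1) → Fin (2 * m + 1)) := by
  intro a b h
  have ha := a.2
  have hb := b.2
  have h2 := congrArg Fin.val h
  simp only [t_rk, rk] at h2
  apply Fin.ext
  split_ifs at h2 <;> omega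

theorem t_rk_hn {m : ℕ} (a : Fin (2 * m + 1)) : hn (t_rk a) = nrm a := by
  have ha := a.2
  simp only [hn, t_rk, rk, nrm]
  split_ifs <;> omega

theorem t_card (m d D : ℕ) : (T m d D).card = (TR m D (0 : Fin (d + 1))).card := by
  have hbij : Function.Bijective (fun x : Fin (d + 1) → Fin (2 * m + 1) => fun i => t_rk (x i)) := by
    apply (Finite.injective_iff_bijective).1
    intro x y h
    funext i
    exact t_rk_inj (congrFun h i)
  apply Finset.card_bij (fun x _ => fun i => t_rk (x i))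
  · intro x hx
    simp only [T, TR, mem_filter, mem_univ, true_and] at hx ⊢
    have e1 : ∑ j ∈ univ.erase (0 : Fin (d + 1)), hn (t_rk (x j)) =
        ∑ i : Fin d, nrm (x i.succ) := by
      have e2 := Finset.add_sum_erase univ (fun j : Fin (d + 1) => hn (t_rk (x j)))
        (mem_univ (0 : Fin (d + 1)))
      rw [Fin.sum_univ_succ] at e2
      have e3 := Nat.add_left_cancel e2
      rw [e3]
      exact Finset.sum_congr rfl fun i _ => t_rk_hn _
    rw [e1]
    exact hx
  · intro x _ y _ h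
    exact hbij.1 h
  · intro z hz
    obtain ⟨x, rfl⟩ := hbij.2 z
    refine ⟨x, ?_, rfl⟩
    simp only [T, TR, mem_filter, mem_univ, true_and] at hz ⊢
    have e1 : ∑ j ∈ univ.erase (0 : Fin (d + 1)), hn (t_rk (x j)) =
        ∑ i : Fin d, nrm (x i.succ) := by
      have e2 := Finset.add_sum_erase univ (fun j : Fin (d + 1) => hn (t_rk (x j)))
        (mem_univ (0 : Fin (d + 1)))
      rw [Fin.sum_univ_succ] at e2
      have e3 := Nat.add_left_cancel e2
      rw [e3]
      exact Finset.sum_congr rfl fun i _ => t_rk_hn _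
    rw [e1] at hz
    exact hz

theorem t_ext (m d D : ℕ) (hm : 1 ≤ m) (hD : D < 2 * m) : T m d D = extSet m d D := by
  ext x
  simp only [T, extSet, mem_filter, mem_univ, true_and]
  have ha := (x 0).2
  by_cases h : (x 0 : ℕ) = m + 1
  · have h6 : rk (x 0) = 2 * m := by
      simp only [rk, h]
      split_ifs <;> omega
    rw [h6]
    constructor
    · intro h1
      right
      have h2 : ∑ i : Fin d, nrm (x i.succ) = 0 := by omega
      refine ⟨by omega, h, ?_⟩
      intro i
      have h3 := (Finset.sum_eq_zero_iff_of_nonneg (fun i _ => Nat.zero_le _)).1 h2 i (mem_univ i)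
      have h4 := (x i.succ).2
      simp only [nrm] at h3
      omega
    · rintro (h1 | ⟨h1, -, h3⟩)
      · omega
      · have h2 : ∑ i : Fin d, nrm (x i.succ) = 0 :=
          Finset.sum_eq_zero fun i _ => by simp [nrm, h3 i]
        omega
  · have h6 : rk (x 0) ≤ 2 * m - 1 := by
      simp only [rk]
      split_ifs <;> omega
    rw [min_eq_left h6]
    constructor
    · intro h1; exact Or.inl h1
    · rintro (h1 | ⟨-, h2, -⟩)
      · exact h1
      · exact absurd h2 h

theorem stT : StT :=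
  ⟨fun m d D hm => t_diam m d D hm, fun m d D _ => t_card m d D, fun m d D hm hD => t_ext m d D hm hD⟩

theorem stBig (h0 : StComp) (h5 : StTR) (h7 : StBEven) (h8 : StBOdd) (h9 : StT) : StBig := by
  intro m d D hm hn
  apply le_antisymm
  · obtain ⟨A, hA, hcc⟩ := h0 m (d + 1) D
    rw [← hA, h9.2.1 m d D hm]
    obtain ⟨R, hR | hR⟩ : ∃ R, D = 2 * R ∨ D = 2 * R + 1 := ⟨D / 2, by omega⟩
    · subst hR
      rw [h5.1 m R (d + 1) 0 hm]
      apply h7 m (d + 1) R A hm _ hcc
      have e1 : 40 * (R + 1) ^ 3 ≤ 320 * (R + 1) ^ 4 := by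
        have : (R + 1) ^ 3 ≤ (R + 1) ^ 4 := Nat.pow_le_pow_right (by omega) (by norm_num)
        omega
      have e2 : 20 * (2 * R + 2) ^ 4 = 320 * (R + 1) ^ 4 := by ring
      omega
    · subst hR
      apply h8 m (d + 1) R A 0 hm _ hcc
      have e2 : 20 * (2 * R + 2) ^ 4 = 320 * (R + 1) ^ 4 := by ring
      have e3 : 20 * (2 * R + 2) ^ 4 ≤ 20 * (2 * R + 1 + 2) ^ 4 := by
        apply Nat.mul_le_mul_left
        exact Nat.pow_le_pow_left (by omega) 4
      omega
  · exact card_le_NL (h9.1 m d D hm)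

end Pool.Agent.Lib.MP_72646e_co.Big
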