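import Pool.Agent.Lib.MP_72646e_co.Big.Stmts

set_option autoImplicit false

/-! B5: the sets `TR`. -/

namespace Pool.Agent.Lib.MP_72646e_co.Big

open Finset Pool.Agent.Lib.MP_72646e_co.Low

section

variable {m n : ℕ}

private lemma TR_hm (x : Fin n → Fin (2 * m + 1)) (i : Fin n) :
    hm x = hn (x i) + ∑ j ∈ univ.erase i, hn (x j) := by
  rw [hm, ← Finset.add_sum_erase univ (fun j => hn (x j)) (Finset.mem_univ i)]

private lemma TR_iff_even (hm1 : 1 ≤ m) (R : ℕ) (i : Fin n) (x : Fin n → Fin (2 * m + 1)) :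
    x ∈ TR m (2 * R) i ↔ hm x ≤ R := by
  rw [TR, Finset.mem_filter, TR_hm x i]
  have hk : (x i : ℕ) < 2 * m + 1 := (x i).2
  simp only [Finset.mem_univ, true_and, hn]
  generalize (∑ j ∈ univ.erase i, ((x j : ℕ) + 1) / 2) = S
  generalize (x i : ℕ) = k at hk
  omega

private lemma TR_iff_odd (hm1 : 1 ≤ m) (R : ℕ) (i : Fin n) (x : Fin n → Fin (2 * m + 1)) :
    x ∈ TR m (2 * R + 1) i ↔ hm x ≤ R ∨ (hm x = R + 1 ∧ od m (x i)) := by
  rw [TR, Finset.mem_filter, TR_hm x i]
  have hk : (x i : ℕ) < 2 * m + 1 := (x i).2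
  simp only [Finset.mem_univ, true_and, hn, od]
  generalize (∑ j ∈ univ.erase i, ((x j : ℕ) + 1) / 2) = S
  generalize (x i : ℕ) = k at hk
  omega

private lemma TR_card_even (hm1 : 1 ≤ m) (R : ℕ) (i : Fin n) :
    (TR m (2 * R) i).card = bl m n R := by
  rw [bl]
  congr 1
  ext x
  rw [TR_iff_even hm1, Finset.mem_filter]
  simp

private lemma TR_swap_le (D : ℕ) (i j : Fin n) : (TR m D i).card ≤ (TR m D j).card := by
  refine Finset.card_le_card_of_injOn (fun x => x ∘ Equiv.swap i j) ?_ ?_
  · intro x hx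
    have hx' := (Finset.mem_filter.mp (Finset.mem_coe.mp hx)).2
    refine Finset.mem_coe.mpr (Finset.mem_filter.mpr ⟨Finset.mem_univ _, ?_⟩)
    have h1 : (x ∘ Equiv.swap i j) j = x i := by simp
    have h2 : ∑ l ∈ univ.erase j, hn ((x ∘ Equiv.swap i j) l) = ∑ l ∈ univ.erase i, hn (x l) := by
      refine Finset.sum_bij' (fun l _ => Equiv.swap i j l) (fun l _ => Equiv.swap i j l) ?_ ?_ ?_ ?_ ?_
      · intro l hl
        rw [Finset.mem_erase] at hl ⊢
        refine ⟨?_, Finset.mem_univ _⟩
        intro h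
        apply hl.1
        rw [Equiv.swap_apply_eq_iff] at h
        rw [h]; simp
      · intro l hl
        rw [Finset.mem_erase] at hl ⊢
        refine ⟨?_, Finset.mem_univ _⟩
        intro h
        apply hl.1
        rw [Equiv.swap_apply_eq_iff] at h
        rw [h]; simp
      · intro l _
        simp
      · intro l _
        simp
      · intro l _
        simp
    show min (((x ∘ Equiv.swap i j) j : Fin (2 * m + 1)) : ℕ) (2 * m - 1) +
      2 * ∑ l ∈ univ.erase j, hn ((x ∘ Equiv.swap i j) l) ≤ D
    rw [h1, h2]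
    exact hx'
  · intro x _ y _ h
    have h' : x ∘ Equiv.swap i j = y ∘ Equiv.swap i j := h
    funext l
    have := congrFun h' (Equiv.swap i j l)
    simpa using this

private lemma TR_zero_le (hm1 : 1 ≤ m) (R : ℕ) (i : Fin n) :
    (univ.filter fun x : Fin n → Fin (2 * m + 1) => hm x = R ∧ (x i : ℕ) = 0).card ≤
      (univ.filter fun x : Fin n → Fin (2 * m + 1) => hm x = R + 1 ∧ (x i : ℕ) = 1).card := by
  refine Finset.card_le_card_of_injOn
    (fun x => Function.update x i (⟨1, by omega⟩ : Fin (2 * m + 1))) ?_ ?_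
  · intro x hx
    obtain ⟨h1, h2⟩ := (Finset.mem_filter.mp (Finset.mem_coe.mp hx)).2
    refine Finset.mem_coe.mpr (Finset.mem_filter.mpr ⟨Finset.mem_univ _, ?_, ?_⟩)
    · have e1 := TR_hm x i
      have e2 := TR_hm (Function.update x i (⟨1, by omega⟩ : Fin (2 * m + 1))) i
      have e3 : ∑ j ∈ univ.erase i,
          hn (Function.update x i (⟨1, by omega⟩ : Fin (2 * m + 1)) j) =
          ∑ j ∈ univ.erase i, hn (x j) := by
        refine Finset.sum_congr rfl fun j hj => ?_
        rw [Function.update_of_ne (Finset.mem_erase.mp hj).1]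
      rw [e3, Function.update_self] at e2
      simp only [hn] at e1 e2 ⊢
      rw [e2]
      rw [e1, h2] at h1
      omega
    · simp
  · intro x hx y hy h
    have hx0 := (Finset.mem_filter.mp (Finset.mem_coe.mp hx)).2.2
    have hy0 := (Finset.mem_filter.mp (Finset.mem_coe.mp hy)).2.2
    funext j
    by_cases hj : j = i
    · subst hj
      exact Fin.ext (by rw [hx0, hy0])
    · have := congrFun h j
      simpa [Function.update_of_ne hj] using this

end

/-- B5: the sets `TR`. -/
theorem stTR (h2 : StRatio2) (h3 : StHeavy) : StTR := by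
  refine ⟨fun m R n i hm1 => TR_card_even hm1 R i, fun m R n i x hm1 => TR_iff_odd hm1 R i x,
    fun m D n i j => le_antisymm (TR_swap_le D i j) (TR_swap_le D j i), ?_⟩
  intro m R n i hm1 hR
  have hn : 0 < n := lt_of_le_of_lt (Nat.zero_le _) i.2
  set a0 := (univ.filter fun x : Fin n → Fin (2 * m + 1) => hm x = R ∧ (x i : ℕ) = 0).card with ha0
  set a1 := (univ.filter fun x : Fin n → Fin (2 * m + 1) => hm x = R + 1 ∧ (x i : ℕ) = 1).card
    with ha1
  set b := (univ.filter fun x : Fin n → Fin (2 * m + 1) => hm x = R ∧ ¬ (x i : ℕ) = 0).card with hb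
  have h01 : a0 ≤ a1 := TR_zero_le hm1 R i
  have hsp : sp m n R = a0 + b := by
    rw [sp, ha0, hb, ← Finset.card_filter_add_card_filter_not
      (s := univ.filter fun x : Fin n → Fin (2 * m + 1) => hm x = R) (fun x => (x i : ℕ) = 0),
      Finset.filter_filter, Finset.filter_filter]
  have hb2 : 2 * b ≤ sp m n R := by
    rcases Nat.eq_zero_or_pos R with hR0 | hR0
    · have : b = 0 := by
        rw [hb, Finset.card_eq_zero, Finset.filter_eq_empty_iff]
        intro x _ hx
        obtain ⟨e1, e2⟩ := hx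
        rw [TR_hm x i, hR0] at e1
        simp only [Big.hn] at e1
        omega
      omega
    · have e1 := h3 m n R 1 {i} hR0
      have e2 := h2 m n R 1 hm1 (by omega) hR0
      simp only [pow_one, Finset.card_singleton, Finset.sum_singleton, mul_one] at e1 e2
      have e3 : b ≤ 2 * sp m n (R - 1) := by
        refine le_trans (le_of_eq ?_) e1
        rw [hb]
        congr 1
        ext x
        simp only [Finset.mem_filter, Finset.mem_univ, true_and, Big.hn]
        constructor
        · rintro ⟨p1, p2⟩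
          exact ⟨p1, by omega⟩
        · rintro ⟨p1, p2⟩
          exact ⟨p1, by omega⟩
      have e4 : n * (4 * sp m n (R - 1)) ≤ n * sp m n R := by
        calc n * (4 * sp m n (R - 1)) = 4 * (n * sp m n (R - 1)) := by ring
          _ ≤ 4 * (R * sp m n R) := Nat.mul_le_mul_left 4 e2
          _ = (4 * R) * sp m n R := by ring
          _ ≤ n * sp m n R := Nat.mul_le_mul_right _ hR
      have e5 := Nat.le_of_mul_le_mul_left e4 hn
      omega
  have hTR : bl m n R + a1 ≤ (TR m (2 * R + 1) i).card := by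
    rw [bl, ha1, ← Finset.card_union_of_disjoint]
    · refine Finset.card_le_card ?_
      intro x hx
      rw [TR_iff_odd hm1]
      rcases Finset.mem_union.mp hx with h | h
      · exact Or.inl (Finset.mem_filter.mp h).2
      · obtain ⟨p1, p2⟩ := (Finset.mem_filter.mp h).2
        refine Or.inr ⟨p1, Or.inl ?_⟩
        rw [p2]
    · rw [Finset.disjoint_left]
      intro x hx hx'
      have p1 := (Finset.mem_filter.mp hx).2
      have p2 := (Finset.mem_filter.mp hx').2.1
      omega
  omega

end Pool.Agent.Lib.MP_72646e_co.Big
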