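import Pool.Agent.Lib.MP_72646e_co.Low.Final
import Pool.Agent.Lib.MP_72646e_co.Big.Ratio
import Pool.Agent.Lib.MP_72646e_co.Big.Heavy
import Pool.Agent.Lib.MP_72646e_co.Big.Sav
import Pool.Agent.Lib.MP_72646e_co.Big.TR
import Pool.Agent.Lib.MP_72646e_co.Big.Even
import Pool.Agent.Lib.MP_72646e_co.Big.Odd
import Pool.Agent.Lib.MP_72646e_co.Big.T

set_option autoImplicit false

/-! Assembly of the projects Low and Big. -/

namespace Pool.Agent.Lib.MP_72646e_co.Big

open Finset Pool.Agent.Lib.MP_72646e_co.Low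

theorem big : StBig := by
  have hR : StRatio2 := stRatio2 stRatio
  have hH : StHeavy := stHeavy
  have hS : StSav := stSav
  have hL : StLevel := stLevel hH hS
  have hTR : StTR := stTR hR hH
  exact stBig stComp hTR (stBEven hR hH hS hL) (stBOdd hR hH hS hTR hL) stT

/-- The exact value of `NL (2 m + 1) n D` in the two ranges, `n = d + 1`. -/
theorem exact_ranges (m d D : ℕ) (hm : 2 ≤ m) :
    ((2 ≤ d ∧ D < 2 * m) ∨ 20 * (D + 2) ^ 4 ≤ d + 1 →
      NL (2 * m + 1) (d + 1) D = (T m d D).card) ∧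
    (∀ x ∈ T m d D, ∀ y ∈ T m d D, dL x y ≤ D) ∧
    (D < 2 * m → (T m d D).card =
      ∑ k ∈ range (D + 1), Del d ((D - k) / 2) + (if D + 1 = 2 * m then 1 else 0)) := by
  obtain ⟨hT1, hT2, hT3⟩ := stT
  refine ⟨?_, hT1 m d D (by omega), ?_⟩
  · rintro (⟨hd, hD⟩ | h)
    · rw [hT3 m d D (by omega) hD]
      exact (exact m d D hm hd hD).2.2.symm
    · exact big m d D (by omega) h
  · intro hD
    rw [hT3 m d D (by omega) hD]
    exact (lower m d D (by omega) hD).2

end Pool.Agent.Lib.MP_72646e_co.Big
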