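import Pool.Agent.Lib.MP_72646e_co.Low.Stmts

set_option autoImplicit false

/-! Project Big: the exact solution of the diametric problem for the Lee metric, `q = 2 m + 1`, all
diameters `D`, dimension at least `20 (D + 2) ^ 4`. Everything except the last two modules is in rank
coordinates: the element of rank `k` is `0, 1, -1, 2, -2, ...`. -/

namespace Pool.Agent.Lib.MP_72646e_co.Big

open Finset Pool.Agent.Lib.MP_72646e_co.Low

/-- Lee weight of the element of rank `k`. -/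
def hn {q : ℕ} (k : Fin q) : ℕ := ((k : ℕ) + 1) / 2

/-- Lee weight of a vector of ranks. -/
def hm {q n : ℕ} (x : Fin n → Fin q) : ℕ := ∑ i, hn (x i)

/-- Sphere sizes. -/
def sp (m n r : ℕ) : ℕ := (univ.filter fun x : Fin n → Fin (2 * m + 1) => hm x = r).card

/-- Ball sizes. -/
def bl (m n r : ℕ) : ℕ := (univ.filter fun x : Fin n → Fin (2 * m + 1) => hm x ≤ r).card

/-- Sets of rank vectors of diameter at most `D`. -/
def CC (m n D : ℕ) (A : Finset (Fin n → Fin (2 * m + 1))) : Prop :=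
  ∀ x ∈ A, ∀ y ∈ A, ∑ i, cc m (x i) (y i) ≤ D

/-- The extremal sets in rank coordinates, special direction `i`. -/
def TR (m D : ℕ) {n : ℕ} (i : Fin n) : Finset (Fin n → Fin (2 * m + 1)) :=
  univ.filter fun x => min (x i : ℕ) (2 * m - 1) + 2 * ∑ j ∈ univ.erase i, hn (x j) ≤ D

/-- Odd ranks, and the rank `2 m` (a twin of the rank `2 m - 1`). -/
def od (m : ℕ) (k : Fin (2 * m + 1)) : Prop := (k : ℕ) % 2 = 1 ∨ (k : ℕ) = 2 * m

/-- B1: ratios of consecutive spheres. -/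
def StRatio : Prop :=
  ∀ m n r : ℕ, 1 ≤ m → 2 * (n - r) * sp m n r ≤ (r + 1) * sp m n (r + 1)

/-- B2: iterated ratios. -/
def StRatio2 : Prop :=
  ∀ m n r u : ℕ, 1 ≤ m → 2 * r ≤ n → u ≤ r → n ^ u * sp m n (r - u) ≤ r ^ u * sp m n r

/-- B3: vectors which are heavy on a small set of coordinates. -/
def StHeavy : Prop :=
  ∀ (m n r u : ℕ) (Z : Finset (Fin n)), u ≤ r →
    (univ.filter fun y : Fin n → Fin (2 * m + 1) => hm y = r ∧ u ≤ ∑ i ∈ Z, hn (y i)).card ≤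
      (2 * Z.card) ^ u * sp m n (r - u)

open scoped Classical in
/-- B4: savings are at most the weight on the common support. -/
def StSav : Prop :=
  ∀ (m n : ℕ) (x y : Fin n → Fin (2 * m + 1)),
    hm x + hm y ≤ ∑ i, cc m (x i) (y i) + ∑ i ∈ univ.filter (fun i => (x i : ℕ) ≠ 0), hn (y i)

/-- B5: the sets `TR`. -/
def StTR : Prop :=
  (∀ (m R n : ℕ) (i : Fin n), 1 ≤ m → (TR m (2 * R) i).card = bl m n R) ∧
  (∀ (m R n : ℕ) (i : Fin n) (x : Fin n → Fin (2 * m + 1)), 1 ≤ m →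
    (x ∈ TR m (2 * R + 1) i ↔ hm x ≤ R ∨ (hm x = R + 1 ∧ od m (x i)))) ∧
  (∀ (m D n : ℕ) (i j : Fin n), (TR m D i).card = (TR m D j).card) ∧
  (∀ (m R n : ℕ) (i : Fin n), 1 ≤ m → 4 * R ≤ n →
    2 * bl m n R + sp m n R ≤ 2 * (TR m (2 * R + 1) i).card)

/-- B6: the heavy levels of a set of small diameter. `s` is the saving forced in level `R + j`. -/
def StLevel : Prop :=
  ∀ (m n D R j s : ℕ) (A : Finset (Fin n → Fin (2 * m + 1))), 1 ≤ m → CC m n D A →
    D + s = 2 * (R + j) → s ≤ R + j →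
    (A.filter fun y => hm y = R + j).card ≤ (2 * D) ^ s * sp m n (R + j - s)

/-- B7: even diameters. -/
def StBEven : Prop :=
  ∀ (m n R : ℕ) (A : Finset (Fin n → Fin (2 * m + 1))), 1 ≤ m → 40 * (R + 1) ^ 3 ≤ n →
    CC m n (2 * R) A → A.card ≤ bl m n R

/-- B8: odd diameters. -/
def StBOdd : Prop :=
  ∀ (m n R : ℕ) (A : Finset (Fin n → Fin (2 * m + 1))) (i : Fin n), 1 ≤ m →
    300 * (R + 1) ^ 4 ≤ n → CC m n (2 * R + 1) A → A.card ≤ (TR m (2 * R + 1) i).card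

/-- The extremal set. -/
def T (m d D : ℕ) : Finset (Fin (d + 1) → Fin (2 * m + 1)) :=
  univ.filter fun x => min (rk (x 0)) (2 * m - 1) + 2 * ∑ i : Fin d, nrm (x i.succ) ≤ D

/-- B9: the extremal set has diameter at most `D`, and agrees with `TR` and, for `D ≤ q - 2`, with
the set of project Low. -/
def StT : Prop :=
  (∀ m d D : ℕ, 1 ≤ m → ∀ x ∈ T m d D, ∀ y ∈ T m d D, dL x y ≤ D) ∧
  (∀ m d D : ℕ, 1 ≤ m → (T m d D).card = (TR m D (0 : Fin (d + 1))).card) ∧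
  (∀ m d D : ℕ, 1 ≤ m → D < 2 * m → T m d D = extSet m d D)

/-- B10: the result. -/
def StBig : Prop :=
  ∀ m d D : ℕ, 1 ≤ m → 20 * (D + 2) ^ 4 ≤ d + 1 → NL (2 * m + 1) (d + 1) D = (T m d D).card

end Pool.Agent.Lib.MP_72646e_co.Big
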